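import Pool.Agent.Helper69.UX.StE

/-!
# Project UX (MP_e12aa9_pr), module GFM: bad partitions are rare
-/

set_option autoImplicit false

namespace Pool.Agent.Helper86.UX

open Finset Filter Pool.Agent.Helper82.CN Pool.Agent.Helper11.PV Pool.Agent.Helper69.VX
  Pool.Agent.Helper69.UX

theorem gauss_sum (B a : ℝ) (hB : 0 < B) (ha : 0 < a) :
    ∃ M : ℝ, 0 ≤ M ∧ ∀ N : ℕ, ∑ i ∈ range N, B ^ i * Real.exp (-(a * (i : ℝ) ^ 2)) ≤ M := by
  set β : ℝ := Real.log B + 1 with hβ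
  refine ⟨Real.exp (β ^ 2 / (4 * a)) * ∑' i : ℕ, Real.exp (-(i : ℝ)), ?_, fun N => ?_⟩
  · exact mul_nonneg (Real.exp_pos _).le (tsum_nonneg fun i => (Real.exp_pos _).le)
  · have h1 : ∀ i : ℕ, B ^ i * Real.exp (-(a * (i : ℝ) ^ 2)) ≤
        Real.exp (β ^ 2 / (4 * a)) * Real.exp (-(i : ℝ)) := by
      intro i
      have h2 : B ^ i = Real.exp (i * Real.log B) := by
        rw [Real.exp_nat_mul, Real.exp_log hB]
      rw [h2, ← Real.exp_add, ← Real.exp_add]
      apply Real.exp_le_exp.2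
      have h3 : (β ^ 2 / (4 * a) + -(i : ℝ)) - (i * Real.log B + -(a * (i : ℝ) ^ 2))
          = (β - 2 * a * i) ^ 2 / (4 * a) := by
        rw [hβ]; field_simp; ring
      have h4 : 0 ≤ (β - 2 * a * i) ^ 2 / (4 * a) := by positivity
      linarith
    calc ∑ i ∈ range N, B ^ i * Real.exp (-(a * (i : ℝ) ^ 2))
        ≤ ∑ i ∈ range N, Real.exp (β ^ 2 / (4 * a)) * Real.exp (-(i : ℝ)) :=
          sum_le_sum fun i _ => h1 i
      _ = Real.exp (β ^ 2 / (4 * a)) * ∑ i ∈ range N, Real.exp (-(i : ℝ)) := by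
          rw [mul_sum]
      _ ≤ _ := by
          apply mul_le_mul_of_nonneg_left _ (Real.exp_pos _).le
          exact Real.summable_exp_neg_nat.sum_le_tsum _ (fun i _ => (Real.exp_pos _).le)

theorem sum_rev (T : ℕ) (G : ℕ → ℝ) :
    ∑ u ∈ range (T + 1), G (T - u) = ∑ i ∈ range (T + 1), G i := by
  have h := Finset.sum_range_reflect G (T + 1)
  rw [← h]
  refine sum_congr rfl fun u _ => ?_
  congr 1

/-- `e^y - 1 ≤ y + y² e^y` -/
theorem exp_quad {y : ℝ} (hy : 0 ≤ y) : Real.exp y - 1 ≤ y + y ^ 2 * Real.exp y := by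
  have h1 : 1 - y ≤ Real.exp (-y) := by linarith [Real.add_one_le_exp (-y)]
  have h2 : Real.exp y * Real.exp (-y) = 1 := by rw [← Real.exp_add]; simp
  have h3 : 0 < Real.exp y := Real.exp_pos y
  -- e^y (1 - y) ≤ 1, so e^y - 1 ≤ y e^y
  have h4 : Real.exp y * (1 - y) ≤ 1 :=
    (mul_le_mul_of_nonneg_left h1 h3.le).trans h2.le
  -- y e^y ≤ y (1 + y e^y)
  have h5 : Real.exp y - 1 ≤ y * Real.exp y := by linarith
  nlinarith [mul_le_mul_of_nonneg_left h5 hy]

/-- the second order term of the hinge events -/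
theorem hinge_sum (L C : ℝ) (hL : 0 < L) (hC : 1 ≤ C) :
    ∃ C' : ℝ, 1 ≤ C' ∧ ∀ (T j : ℕ) (x K : ℝ) (κ : ℕ → ℝ), 0 ≤ x → x ≤ 1 → 0 ≤ K →
      (∀ u, u ≤ T → 0 ≤ κ u) →
      (∀ u, u ≤ T → κ u ≤ K * C ^ (T - u + 1) * Real.exp (-(L * ((T - u : ℕ) : ℝ) ^ 2 / 2))) →
      ∑ u ∈ range (T + 1), κ u * (Real.exp (x * ((T - j - u : ℕ) : ℝ)) - 1) ≤
        x * ∑ u ∈ range (T + 1), κ u * ((T - j - u : ℕ) : ℝ) + x ^ 2 * C' * K := by
  obtain ⟨M, hM0, hM⟩ := gauss_sum (C * Real.exp 2) (L / 2) (by positivity) (by positivity)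
  refine ⟨2 * C * M + 1, by nlinarith [mul_nonneg (by linarith : (0 : ℝ) ≤ C) hM0], ?_⟩
  intro T j x K κ hx0 hx1 hK hκ0 hκ
  have h1 : ∀ u ∈ range (T + 1), κ u * (Real.exp (x * ((T - j - u : ℕ) : ℝ)) - 1) ≤
      x * (κ u * ((T - j - u : ℕ) : ℝ)) + x ^ 2 * K * (2 * C *
        ((C * Real.exp 2) ^ (T - u) * Real.exp (-(L / 2 * ((T - u : ℕ) : ℝ) ^ 2)))) := by
    intro u hu
    have hu' : u ≤ T := by
      have := mem_range.1 hu
      omega
    set v : ℝ := ((T - j - u : ℕ) : ℝ) with hv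
    set i : ℕ := T - u with hi
    have hv0 : 0 ≤ v := by positivity
    have hvi : v ≤ (i : ℝ) := by
      rw [hv, hi]
      exact_mod_cast (by omega : T - j - u ≤ T - u)
    have hκu := hκ0 u hu'
    have h2 := mul_le_mul_of_nonneg_left (exp_quad (mul_nonneg hx0 hv0)) hκu
    have hi0 : (0 : ℝ) ≤ i := by positivity
    have h3 : (x * v) ^ 2 * Real.exp (x * v) ≤ x ^ 2 * (2 * Real.exp (2 * (i : ℝ))) := by
      have e1 : v ^ 2 ≤ (i : ℝ) ^ 2 := by gcongr
      have e2 : (i : ℝ) ^ 2 ≤ 2 * Real.exp i := by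
        have := Real.quadratic_le_exp_of_nonneg hi0
        linarith
      have e3 : Real.exp (x * v) ≤ Real.exp i := by
        apply Real.exp_le_exp.2
        calc x * v ≤ 1 * v := mul_le_mul_of_nonneg_right hx1 hv0
          _ = v := one_mul v
          _ ≤ i := hvi
      have e4 : Real.exp (2 * (i : ℝ)) = Real.exp i * Real.exp i := by
        rw [← Real.exp_add]; congr 1; ring
      rw [e4, mul_pow]
      calc x ^ 2 * v ^ 2 * Real.exp (x * v) ≤ x ^ 2 * (2 * Real.exp i) * Real.exp i := by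
            apply mul_le_mul _ e3 (Real.exp_pos _).le (by positivity)
            exact mul_le_mul_of_nonneg_left (e1.trans e2) (by positivity)
        _ = x ^ 2 * (2 * (Real.exp i * Real.exp i)) := by ring
    have h4 : κ u * ((x * v) ^ 2 * Real.exp (x * v)) ≤
        (K * C ^ (i + 1) * Real.exp (-(L * (i : ℝ) ^ 2 / 2))) *
          (x ^ 2 * (2 * Real.exp (2 * (i : ℝ)))) := by
      apply mul_le_mul (hκ u hu') h3 (by positivity)
      positivity
    have h5 : (K * C ^ (i + 1) * Real.exp (-(L * (i : ℝ) ^ 2 / 2))) *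
          (x ^ 2 * (2 * Real.exp (2 * (i : ℝ)))) = x ^ 2 * K * (2 * C *
        ((C * Real.exp 2) ^ i * Real.exp (-(L / 2 * (i : ℝ) ^ 2)))) := by
      have e1 : Real.exp (2 * (i : ℝ)) = Real.exp 2 ^ i := by
        rw [← Real.exp_nat_mul]; congr 1; ring
      have e2 : -(L * (i : ℝ) ^ 2 / 2) = -(L / 2 * (i : ℝ) ^ 2) := by ring
      rw [e1, e2, mul_pow, pow_succ]
      ring
    rw [h5] at h4
    linarith
  have h6 := sum_le_sum h1
  rw [sum_add_distrib, ← mul_sum, ← mul_sum, ← mul_sum] at h6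
  have h7 := sum_rev T (fun i => (C * Real.exp 2) ^ i * Real.exp (-(L / 2 * (i : ℝ) ^ 2)))
  rw [h7] at h6
  have h8 := hM (T + 1)
  have h9 : x ^ 2 * K * (2 * C * ∑ i ∈ range (T + 1),
      (C * Real.exp 2) ^ i * Real.exp (-(L / 2 * (i : ℝ) ^ 2))) ≤ x ^ 2 * (2 * C * M + 1) * K := by
    have e1 : 2 * C * ∑ i ∈ range (T + 1),
      (C * Real.exp 2) ^ i * Real.exp (-(L / 2 * (i : ℝ) ^ 2)) ≤ 2 * C * M + 1 := by
      have := mul_le_mul_of_nonneg_left h8 (by linarith : (0 : ℝ) ≤ 2 * C)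
      linarith
    have e2 : 0 ≤ x ^ 2 * K := by positivity
    calc _ ≤ x ^ 2 * K * (2 * C * M + 1) := mul_le_mul_of_nonneg_left e1 e2
      _ = _ := by ring
  linarith

/-- the exponential moment of the small classes -/
theorem small_sum (L C : ℝ) (hL : 0 < L) (hC : 1 ≤ C) :
    ∃ C'' : ℝ, 0 ≤ C'' ∧ ∀ (T h : ℕ) (K : ℝ) (κ : ℕ → ℝ), 0 ≤ K →
      (∀ u, u ≤ T → 0 ≤ κ u) →
      (∀ u, u ≤ T → κ u ≤ K * C ^ (T - u + 1) * Real.exp (-(L * ((T - u : ℕ) : ℝ) ^ 2 / 2))) →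
      ∑ u ∈ range (T + 1), κ u * (Real.exp (if h ≤ T - u then L / 8 * ((T - u : ℕ) : ℝ) ^ 2
        else 0) - 1) ≤ C'' * (K * Real.exp (-(L * (h : ℝ) ^ 2 / 4))) := by
  obtain ⟨M, hM0, hM⟩ := gauss_sum C (L / 8) (by linarith) (by positivity)
  refine ⟨C * M, by positivity, ?_⟩
  intro T h K κ hK hκ0 hκ
  have h1 : ∀ u ∈ range (T + 1), κ u * (Real.exp (if h ≤ T - u then L / 8 * ((T - u : ℕ) : ℝ) ^ 2
        else 0) - 1) ≤ (C * (K * Real.exp (-(L * (h : ℝ) ^ 2 / 4)))) *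
        (C ^ (T - u) * Real.exp (-(L / 8 * ((T - u : ℕ) : ℝ) ^ 2))) := by
    intro u hu
    have hu' : u ≤ T := by
      have := mem_range.1 hu
      omega
    have hκu := hκ0 u hu'
    have hκu2 := hκ u hu'
    set i : ℕ := T - u with hi
    by_cases hh : h ≤ i
    · rw [if_pos hh]
      have e0 : κ u * (Real.exp (L / 8 * (i : ℝ) ^ 2) - 1) ≤ κ u * Real.exp (L / 8 * (i : ℝ) ^ 2) := by
        apply mul_le_mul_of_nonneg_left _ hκu
        linarith
      have e1 : κ u * Real.exp (L / 8 * (i : ℝ) ^ 2) ≤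
          (K * C ^ (i + 1) * Real.exp (-(L * (i : ℝ) ^ 2 / 2))) * Real.exp (L / 8 * (i : ℝ) ^ 2) :=
        mul_le_mul_of_nonneg_right hκu2 (Real.exp_pos _).le
      have e2 : Real.exp (-(L * (i : ℝ) ^ 2 / 2)) * Real.exp (L / 8 * (i : ℝ) ^ 2) ≤
          Real.exp (-(L * (h : ℝ) ^ 2 / 4)) * Real.exp (-(L / 8 * (i : ℝ) ^ 2)) := by
        rw [← Real.exp_add, ← Real.exp_add]
        apply Real.exp_le_exp.2
        have hhi : (h : ℝ) ≤ i := by exact_mod_cast hh
        have e3 : (h : ℝ) ^ 2 ≤ (i : ℝ) ^ 2 := by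
          have : (0 : ℝ) ≤ h := by positivity
          gcongr
        nlinarith [mul_le_mul_of_nonneg_left e3 hL.le]
      have e4 : 0 ≤ K * C ^ (i + 1) := by positivity
      calc _ ≤ _ := e0
        _ ≤ _ := e1
        _ = (K * C ^ (i + 1)) * (Real.exp (-(L * (i : ℝ) ^ 2 / 2)) *
            Real.exp (L / 8 * (i : ℝ) ^ 2)) := by ring
        _ ≤ (K * C ^ (i + 1)) * (Real.exp (-(L * (h : ℝ) ^ 2 / 4)) *
            Real.exp (-(L / 8 * (i : ℝ) ^ 2))) := mul_le_mul_of_nonneg_left e2 e4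
        _ = _ := by rw [pow_succ]; ring
    · rw [if_neg hh]
      simp only [Real.exp_zero, sub_self, mul_zero]
      positivity
  have h6 := sum_le_sum h1
  rw [← mul_sum] at h6
  have h7 := sum_rev T (fun i => C ^ i * Real.exp (-(L / 8 * (i : ℝ) ^ 2)))
  rw [h7] at h6
  have h8 := hM (T + 1)
  have h9 : 0 ≤ C * (K * Real.exp (-(L * (h : ℝ) ^ 2 / 4))) := by positivity
  calc _ ≤ _ := h6
    _ ≤ (C * (K * Real.exp (-(L * (h : ℝ) ^ 2 / 4)))) * M := mul_le_mul_of_nonneg_left h8 h9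
    _ = _ := by ring

open Classical in
/-- union bound -/
theorem cover {α : Type} (S : Finset α) (f : α → ℝ) (hf : ∀ x, 0 ≤ f x) (p p1 : α → Prop)
    (J T : ℕ) (p2 p3 : ℕ → α → Prop)
    (h : ∀ x ∈ S, p x → p1 x ∨ (∃ j ∈ range (J + 1), p2 j x) ∨ ∃ h ∈ range (T + 1), p3 h x) :
    ∑ x ∈ S.filter p, f x ≤ ∑ x ∈ S.filter p1, f x +
      ∑ j ∈ range (J + 1), ∑ x ∈ S.filter (p2 j), f x +
      ∑ h ∈ range (T + 1), ∑ x ∈ S.filter (p3 h), f x := by
  simp only [sum_filter]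
  rw [sum_comm (s := range (J + 1)), sum_comm (s := range (T + 1)), ← sum_add_distrib,
    ← sum_add_distrib]
  refine sum_le_sum fun x hx => ?_
  have n2 : ∀ j ∈ range (J + 1), 0 ≤ (if p2 j x then f x else 0) := by
    intro j _
    split_ifs
    · exact hf x
    · exact le_rfl
  have n3 : ∀ j ∈ range (T + 1), 0 ≤ (if p3 j x then f x else 0) := by
    intro j _
    split_ifs
    · exact hf x
    · exact le_rfl
  have n1 : 0 ≤ (if p1 x then f x else 0) := by
    split_ifs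
    · exact hf x
    · exact le_rfl
  have s2 := sum_nonneg n2
  have s3 := sum_nonneg n3
  by_cases hp : p x
  · rw [if_pos hp]
    rcases h x hx hp with h1 | ⟨j, hj, h2⟩ | ⟨j, hj, h3⟩
    · rw [if_pos h1]
      linarith
    · have := single_le_sum n2 hj
      rw [if_pos h2] at this
      linarith
    · have := single_le_sum n3 hj
      rw [if_pos h3] at this
      linarith
  · rw [if_neg hp]
    linarith

open Classical in
theorem hGFM (hTIL : StTIL) (hSIZ : StSIZ) : StGFM := by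
  intro p ε C hp hp1 hε hε1 hC
  have hL : 0 < bb p := by
    unfold bb
    apply Real.log_pos
    have h1 : 0 < 1 / Real.exp 2 := by positivity
    rw [lt_div_iff₀ (by linarith)]
    linarith
  have hq0 : 0 ≤ 1 - p := by
    have h1 : 0 < 1 / Real.exp 2 := by positivity
    linarith
  obtain ⟨C', hC'1, hC'⟩ := hinge_sum (bb p) C hL hC
  obtain ⟨C'', hC''0, hC''⟩ := small_sum (bb p) C hL hC
  refine ⟨8 * (C'' + 1) / bb p + 1, ?_, ?_⟩
  · have : 0 ≤ 8 * (C'' + 1) / bb p := by positivity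
    linarith
  intro C₀ δ J hC₀ hδ
  obtain ⟨n1, hn1⟩ := hTIL p ε C hp hp1 hε hε1 hC
  obtain ⟨n2, hn2⟩ := hSIZ p ε ε J hp hp1 hε hε1 hε
  set x : ℝ := min 1 (δ / (2 * C')) with hx
  have hx0 : 0 < x := lt_min one_pos (by positivity)
  have hx1 : x ≤ 1 := min_le_left _ _
  have hx2 : x * C' ≤ δ / 2 := by
    have h1 : x ≤ δ / (2 * C') := min_le_right _ _
    have h2 : 0 < C' := by linarith
    calc x * C' ≤ δ / (2 * C') * C' := mul_le_mul_of_nonneg_right h1 h2.le
      _ = δ / 2 := by field_simp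
  have hev : ∀ᶠ n : ℕ in atTop, max 8 (7 / (x * δ)) ≤ (n : ℝ) ^ ε := by
    have h1 : Tendsto (fun n : ℕ => (n : ℝ) ^ ε) atTop atTop :=
      (tendsto_rpow_atTop hε).comp tendsto_natCast_atTop_atTop
    exact h1.eventually_ge_atTop _
  obtain ⟨n3, hn3⟩ := eventually_atTop.1 hev
  refine ⟨max (max n1 n2) (max n3 1), ?_⟩
  intro n T th κ lam mu hn hWin hPar
  have hnn1 : n1 ≤ n := le_trans (le_trans (le_max_left _ _) (le_max_left _ _)) hn
  have hnn2 : n2 ≤ n := le_trans (le_trans (le_max_right _ _) (le_max_left _ _)) hn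
  have hnn3 : n3 ≤ n := le_trans (le_trans (le_max_left _ _) (le_max_right _ _)) hn
  have hn0 : 1 ≤ n := le_trans (le_trans (le_max_right _ _) (le_max_right _ _)) hn
  obtain ⟨hWt, -, hT3, hT4⟩ := hn1 δ n T th κ lam mu hnn1 hWin hPar
  have hSz := hn2 n T th hnn2 hWin
  obtain ⟨-, hth1, hth2⟩ := hWin
  have hnR : (1 : ℝ) ≤ n := by exact_mod_cast hn0
  have hnR0 : (0 : ℝ) < n := by linarith
  have hbig := hn3 n hnn3
  have hb8 : 8 ≤ (n : ℝ) ^ ε := (le_max_left _ _).trans hbig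
  have hb7 : 7 / (x * δ) ≤ (n : ℝ) ^ ε := (le_max_right _ _).trans hbig
  set K : ℝ := KK T κ with hKdef
  set X : ℝ := (n : ℝ) ^ (th + 4 * ε) with hX
  set s : ℝ := (n : ℝ) ^ (th + 5 * ε) with hs
  have hsX : s = X * (n : ℝ) ^ ε := by
    rw [hs, hX, ← Real.rpow_add hnR0]; congr 1; ring
  have hX1 : 1 ≤ X := Real.one_le_rpow hnR (by linarith)
  have hs8 : 8 * X ≤ s := by
    rw [hsX]; nlinarith
  have hκ0 : ∀ u, u ≤ T → 0 ≤ κ u := by
    intro u hu
    have h1 := hWt.nn u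
    unfold kD at h1
    rwa [if_neg (by omega)] at h1
  have hK0 : 0 ≤ K := by
    rw [hKdef]
    exact sum_nonneg fun u hu => hκ0 u (by have := mem_range.1 hu; omega)
  have hκt : ∀ u, u ≤ T → κ u ≤ K * C ^ (T - u + 1) *
      Real.exp (-(bb p * ((T - u : ℕ) : ℝ) ^ 2 / 2)) := hPar.tail
  -- `n ≤ T K`
  have hnTK : (n : ℝ) ≤ T * K := by
    rw [← hPar.sum, hKdef]
    unfold KK
    rw [mul_sum]
    refine sum_le_sum fun u hu => ?_
    have hu' : u ≤ T := by have := mem_range.1 hu; omega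
    exact mul_le_mul_of_nonneg_right (by exact_mod_cast hu') (hκ0 u hu')
  have hT1 : (1 : ℝ) ≤ T := by
    have := hSz.t4.1
    have h2 : 1 ≤ T := by omega
    exact_mod_cast h2
  have hTε : (T : ℝ) ≤ (n : ℝ) ^ ε := by
    calc (T : ℝ) ≤ (T : ℝ) ^ 8 := le_self_pow₀ hT1 (by norm_num)
      _ ≤ _ := hSz.t3
  -- `K` is large
  have hXK : 7 * X ≤ x * δ * K := by
    have hxδ : 0 < x * δ := mul_pos hx0 hδ
    have h1 : 7 ≤ x * δ * (n : ℝ) ^ ε := by
      rw [div_le_iff₀ hxδ] at hb7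
      linarith
    have h2 : X * (n : ℝ) ^ ε * (n : ℝ) ^ ε ≤ n := by
      rw [hX, ← Real.rpow_add hnR0, ← Real.rpow_add hnR0]
      calc (n : ℝ) ^ (th + 4 * ε + ε + ε) ≤ (n : ℝ) ^ (1 : ℝ) :=
            Real.rpow_le_rpow_of_exponent_le hnR (by linarith)
        _ = n := Real.rpow_one _
    have h3 : X * (n : ℝ) ^ ε * (n : ℝ) ^ ε ≤ (n : ℝ) ^ ε * K := by
      refine (h2.trans hnTK).trans ?_
      exact mul_le_mul_of_nonneg_right hTε hK0
    have h4 : 0 < (n : ℝ) ^ ε := by linarith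
    have h5 : X * (n : ℝ) ^ ε ≤ K := by
      by_contra hcon
      push Not at hcon
      have := mul_lt_mul_of_pos_left hcon h4
      nlinarith
    calc 7 * X ≤ (x * δ * (n : ℝ) ^ ε) * X := mul_le_mul_of_nonneg_right h1 (by linarith)
      _ = x * δ * (X * (n : ℝ) ^ ε) := by ring
      _ ≤ x * δ * K := mul_le_mul_of_nonneg_left h5 hxδ.le
  have hs3 : (n : ℝ) ^ (th + 3 * ε) ≤ s :=
    Real.rpow_le_rpow_of_exponent_le hnR (by linarith)
  have hf : ∀ P : Finset (Finset (Fin n)), 0 ≤ (1 - p) ^ inn P := fun P => pow_nonneg hq0 _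
  refine ⟨?_, ?_⟩
  · have hcov := cover (QQ ε n T th κ) (fun P => (1 - p) ^ inn P) hf
      (fun P => ¬ Good p C₀ δ s n T J κ P) (fun P => (P.card : ℝ) ≤ K - s) J T
      (fun j P => x * (∑ u ∈ range (T + 1), κ u * ((T - j - u : ℕ) : ℝ) + δ * K) ≤
        ∑ A ∈ P, (fun u : ℕ => x * ((T - j - u : ℕ) : ℝ)) A.card)
      (fun h P => bb p / 8 * (C₀ * (s + K * Real.exp (-(bb p * (h : ℝ) ^ 2 / 4)))) ≤
        ∑ A ∈ P, (fun u : ℕ => if h ≤ T - u then bb p / 8 * ((T - u : ℕ) : ℝ) ^ 2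
          else 0) A.card) (by
        intro P hP hng
        rw [QQ, mem_filter] at hP
        obtain ⟨hP1, hP2, hP3, hP4⟩ := hP
        by_contra hno
        push Not at hno
        obtain ⟨hno1, hno2, hno3⟩ := hno
        apply hng
        refine ⟨hP1, hP2, hno1.le, hP4.trans (by linarith), ?_, ?_⟩
        · intro j hj
          have h1 := hno2 j (mem_range.2 (by omega))
          rw [← mul_sum] at h1
          exact (lt_of_mul_lt_mul_left h1 hx0.le).le
        · intro h hh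
          have h1 := hno3 h (mem_range.2 (by omega))
          have h2 : ∑ A ∈ P, (if h ≤ T - A.card then bb p / 8 * ((T - A.card : ℕ) : ℝ) ^ 2
              else 0) = bb p / 8 * ∑ A ∈ P.filter (fun A => h ≤ T - A.card),
              ((T - A.card : ℕ) : ℝ) ^ 2 := by
            rw [mul_sum, sum_filter]
          rw [h2] at h1
          exact (lt_of_mul_lt_mul_left h1 (by positivity)).le)
    have hgoal : ∀ (y z : ℝ), y ≤ z → z ≤ Real.exp (-X) → y ≤ Real.exp (-X) :=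
      fun y z h1 h2 => h1.trans h2
    refine hgoal _ _ (by convert hcov) ?_
    have b1 : ∑ P ∈ (QQ ε n T th κ).filter (fun P => (P.card : ℝ) ≤ K - s), (1 - p) ^ inn P ≤
        Real.exp (-(2 * X)) := by
      refine (hT4 s (by linarith)).trans ?_
      apply Real.exp_le_exp.2
      linarith
    have b2 : ∀ j ∈ range (J + 1), ∑ P ∈ (QQ ε n T th κ).filter (fun P =>
        x * (∑ u ∈ range (T + 1), κ u * ((T - j - u : ℕ) : ℝ) + δ * K) ≤
        ∑ A ∈ P, (fun u : ℕ => x * ((T - j - u : ℕ) : ℝ)) A.card), (1 - p) ^ inn P ≤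
        Real.exp (-(2 * X)) := by
      intro j _
      refine (hT3 (fun u : ℕ => x * ((T - j - u : ℕ) : ℝ))
        (x * (∑ u ∈ range (T + 1), κ u * ((T - j - u : ℕ) : ℝ) + δ * K))
        (fun u => by positivity)).trans ?_
      apply Real.exp_le_exp.2
      have h1 := hC' T j x K κ hx0.le hx1 hK0 hκ0 hκt
      have h2 : x * ((T - j - (T + 1) : ℕ) : ℝ) = 0 := by
        rw [show T - j - (T + 1) = 0 by omega]; simp
      simp only [h2, Real.exp_zero]
      have h3 : x ^ 2 * C' * K ≤ x * (δ / 2) * K := by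
        have : x ^ 2 * C' = x * (x * C') := by ring
        rw [this]
        exact mul_le_mul_of_nonneg_right (mul_le_mul_of_nonneg_left hx2 hx0.le) hK0
      nlinarith
    have hC₀L : C'' + 1 ≤ bb p / 8 * C₀ := by
      have h1 : bb p / 8 * (8 * (C'' + 1) / bb p + 1) ≤ bb p / 8 * C₀ :=
        mul_le_mul_of_nonneg_left hC₀ (by positivity)
      have h2 : bb p / 8 * (8 * (C'' + 1) / bb p + 1) = C'' + 1 + bb p / 8 := by
        field_simp
      linarith
    have b3 : ∀ h ∈ range (T + 1), ∑ P ∈ (QQ ε n T th κ).filter (fun P =>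
        bb p / 8 * (C₀ * (s + K * Real.exp (-(bb p * (h : ℝ) ^ 2 / 4)))) ≤
        ∑ A ∈ P, (fun u : ℕ => if h ≤ T - u then bb p / 8 * ((T - u : ℕ) : ℝ) ^ 2
          else 0) A.card), (1 - p) ^ inn P ≤ Real.exp (-(2 * X)) := by
      intro h _
      refine (hT3 (fun u : ℕ => if h ≤ T - u then bb p / 8 * ((T - u : ℕ) : ℝ) ^ 2 else 0)
        (bb p / 8 * (C₀ * (s + K * Real.exp (-(bb p * (h : ℝ) ^ 2 / 4)))))
        (fun u => by
          show 0 ≤ (if h ≤ T - u then bb p / 8 * ((T - u : ℕ) : ℝ) ^ 2 else 0)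
          split_ifs
          · positivity
          · exact le_rfl)).trans ?_
      apply Real.exp_le_exp.2
      have h1 := hC'' T h K κ hK0 hκ0 hκt
      have h2 : (if h ≤ T - (T + 1) then bb p / 8 * ((T - (T + 1) : ℕ) : ℝ) ^ 2 else 0) = 0 := by
        rw [show T - (T + 1) = 0 by omega]; simp
      simp only [h2, Real.exp_zero]
      set G : ℝ := K * Real.exp (-(bb p * (h : ℝ) ^ 2 / 4)) with hG
      have hG0 : 0 ≤ G := by positivity
      have h3 : (C'' + 1) * (s + G) ≤ bb p / 8 * (C₀ * (s + G)) := by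
        have := mul_le_mul_of_nonneg_right hC₀L (by linarith : 0 ≤ s + G)
        linarith
      have h4 : 0 ≤ C'' * s := mul_nonneg hC''0 (by linarith)
      nlinarith
    have c2 := sum_le_sum b2
    have c3 := sum_le_sum b3
    simp only [sum_const, card_range, nsmul_eq_mul] at c2 c3
    have hcard : (J : ℝ) + T + 3 ≤ Real.exp X := by
      have h1 : (J : ℝ) + T + 3 ≤ n := by
        have := hSz.t4.2
        have h2 : J + T + 3 ≤ n := by omega
        exact_mod_cast h2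
      have h2 := Real.quadratic_le_exp_of_nonneg (by linarith : (0 : ℝ) ≤ X)
      have h3 : 2 * (n : ℝ) ≤ X ^ 2 := by
        have e1 : (n : ℝ) * (n : ℝ) ^ ε ≤ X ^ 2 := by
          rw [hX, ← Real.rpow_natCast, ← Real.rpow_mul hnR0.le]
          calc (n : ℝ) * (n : ℝ) ^ ε = (n : ℝ) ^ (1 + ε) := by
                rw [Real.rpow_add hnR0, Real.rpow_one]
            _ ≤ _ := Real.rpow_le_rpow_of_exponent_le hnR (by push_cast; linarith)
        nlinarith
      linarith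
    have hfin : (1 + ((J : ℝ) + 1) + ((T : ℝ) + 1)) * Real.exp (-(2 * X)) ≤ Real.exp (-X) := by
      have h1 : Real.exp (-X) = Real.exp X * Real.exp (-(2 * X)) := by
        rw [← Real.exp_add]; congr 1; ring
      rw [h1]
      apply mul_le_mul_of_nonneg_right _ (Real.exp_pos _).le
      linarith
    push_cast at c2 c3
    have h9 : (1 + ((J : ℝ) + 1) + ((T : ℝ) + 1)) * Real.exp (-(2 * X)) =
      Real.exp (-(2 * X)) + ((J : ℝ) + 1) * Real.exp (-(2 * X)) +
        ((T : ℝ) + 1) * Real.exp (-(2 * X)) := by ring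
    rw [h9] at hfin
    refine le_trans ?_ hfin
    exact add_le_add (add_le_add b1 c2) c3
  · have h1 := hT3 (fun _ => 0) 0 (fun _ => le_rfl)
    have h2 : (QQ ε n T th κ).filter (fun P => (0 : ℝ) ≤ ∑ A ∈ P, (fun _ : ℕ => (0 : ℝ)) A.card)
        = QQ ε n T th κ := by
      rw [filter_eq_self]
      intro P _
      simp
    rw [h2] at h1
    refine h1.trans ?_
    apply Real.exp_le_exp.2
    simp only [Real.exp_zero, sub_self, mul_zero, sum_const_zero]
    have : 2 ≤ X := by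
      have e1 : (n : ℝ) ^ ε ≤ X := Real.rpow_le_rpow_of_exponent_le hnR (by linarith)
      linarith
    linarith

end Pool.Agent.Helper86.UX
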